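import Pool.Agent.Q240.Dim.Data

/-!
A finite congruence uniform (hence semidistributive) lattice that is 4-Hasse-regular and has order
dimension greater than 4.
-/

namespace Pool.Agent.Results.MP_512408_co.HasseRegularDimension

open Pool.Agent.Q240.Dim

theorem result : ∃ (L : Type) (inst : Lattice L), Finite L ∧ CongruenceUniform L inst ∧
    Semidistributive L ∧ HasseRegular L 4 ∧ 4 < orderDimension L := by
  obtain ⟨k, L, inst, e, hcu, hsd, hlt, hle, hmem⟩ :=
    build_enc dbls 0 [0] elts Enc.zero build_ok
  have hinj : Function.Injective e := by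
    intro x y hxy
    apply le_antisymm
    · rw [hle, hxy]; exact sub_refl _
    · rw [hle, hxy]; exact sub_refl _
  have hfin : Finite L := Finite.of_injective (fun x : L => (⟨e x, hlt x⟩ : Fin (2 ^ k)))
    (fun x y h => hinj (congrArg Fin.val h))
  refine ⟨L, inst, hfin, hcu, hsd, regular_of_table hle hmem table_ok fst_ok rfl, ?_⟩
  exact four_lt_orderDimension
    (fun d hd => no_realizer hle hmem pairs_ok conf_ok search_ok hd)

end Pool.Agent.Results.MP_512408_co.HasseRegularDimension
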